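import Pool.Agent.W855.Balanced

/-!
# From intervals at the scales `k ^ m` to all large numbers

This is the file `Pool.Agent.W855.AllLarge` of helper855 with the block size `b` separated from the
scale `k`.
-/

set_option autoImplicit false

namespace Pool.Agent.W865.SS

open Finset H108 Pool.Agent.W855

/-- intervals of relative length at least `k ^ (-e)` close to every power of `k` -/
def Ivl (b k g e f : ℕ) : Prop :=
  ∀ m : ℕ, ∃ A B : ℕ, k ^ m ≤ A ∧ A ≤ k ^ (m + f) ∧ A ≤ B ∧ B ≤ 2 * A ∧ A ≤ k ^ e * (B - A) ∧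
    ∀ u, A ≤ u → u ≤ B → IG {b} g u 0

theorem exists_split {N A B u : ℕ} (hN : 0 < N) (h1 : N * A ≤ u) (h2 : u ≤ N * B) :
    ∃ x : Fin N → ℕ, (∀ i, A ≤ x i ∧ x i ≤ B) ∧ ∑ i, x i = u := by
  have hdm := Nat.div_add_mod u N
  have hmod := Nat.mod_lt u hN
  have hA : A ≤ u / N := by
    rw [Nat.le_div_iff_mul_le hN, mul_comm]; exact h1
  refine ⟨fun i => u / N + (if i.val < u % N then 1 else 0), ?_, ?_⟩
  · intro i
    dsimp only
    refine ⟨by omega, ?_⟩
    split_ifs with h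
    · have h3 : N * (u / N) < N * B := by omega
      have := Nat.lt_of_mul_lt_mul_left h3
      omega
    · have h3 : N * (u / N) ≤ N * B := by omega
      have := Nat.le_of_mul_le_mul_left h3 hN
      omega
  · rw [sum_add_distrib, sum_const, card_univ, Fintype.card_fin, smul_eq_mul]
    have e2 : (∑ i : Fin N, if i.val < u % N then 1 else 0) = u % N := by
      rw [sum_boole]
      have : (univ.filter (fun i : Fin N => i.val < u % N)) =
          (univ : Finset (Fin (u % N))).map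
          ⟨Fin.castLE hmod.le, Fin.castLE_injective hmod.le⟩ := by
        ext i
        simp only [mem_filter, mem_univ, true_and, mem_map, Function.Embedding.coeFn_mk]
        constructor
        · intro hi
          exact ⟨⟨i.val, hi⟩, rfl⟩
        · rintro ⟨j, rfl⟩
          exact j.2
      rw [this]
      simp
    rw [e2]
    exact hdm

/-- one value, from two intervals -/
theorem one_value {C b k g e A1 B1 A2 B2 c3 u : ℕ}
    (hT : ∀ N : ℕ, 2 ≤ N → ∀ n : ℕ, N ^ C ≤ n → OA N n) (hk : 3 ≤ k)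
    (hA1 : 288 * (k ^ e) ^ 2 * ((2 * c3 + 1) * k) ≤ A1) (hAB1 : A1 ≤ B1) (hB1 : B1 ≤ 2 * A1)
    (hr1 : A1 ≤ k ^ e * (B1 - A1)) (hI1 : ∀ u, A1 ≤ u → u ≤ B1 → IG {b} g u 0)
    (hA2 : ((k + 2) * (A1 + B1)) ^ C ≤ A2) (hAe : 12 * k ^ e ≤ A2) (hB2 : B2 ≤ 2 * A2)
    (hAB2 : A2 ≤ B2)
    (hr2 : A2 ≤ (A1 + B1) * (B2 - A2)) (hI2 : ∀ u, A2 ≤ u → u ≤ B2 → IG {b} g u 0)
    (hu1 : (A1 + B1) * A2 ≤ u) (hu2 : u ≤ (k + 2) * ((A1 + B1) * A2)) (hu3 : 2 * u ≤ k ^ c3) :
    IG {b} g u 0 := by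
  set s := A1 + B1 with hs
  have hke : 0 < k ^ e := by positivity
  have hA1pos : 0 < A1 := by
    refine lt_of_lt_of_le ?_ hA1
    positivity
  have hspos : 0 < s := by omega
  have hs2 : 2 ≤ s := by omega
  have hA2pos : 0 < A2 := by
    refine lt_of_lt_of_le ?_ hAe
    positivity
  set N := u / A2 with hN
  have hNs : s ≤ N := by
    rw [hN, Nat.le_div_iff_mul_le hA2pos]; exact hu1
  have hNu : N ≤ (k + 2) * s := by
    rw [hN]
    apply Nat.div_le_of_le_mul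
    calc u ≤ (k + 2) * (s * A2) := hu2
      _ = A2 * ((k + 2) * s) := by ring
  have hNA : N * A2 ≤ u := Nat.div_mul_le_self u A2
  have hNB : u ≤ N * B2 := by
    have h1 : u < (N + 1) * A2 := by
      have h5 := Nat.div_add_mod u A2
      have h6 := Nat.mod_lt u hA2pos
      rw [← hN] at h5
      have h7 : (N + 1) * A2 = A2 * N + A2 := by ring
      omega
    have h2 : A2 ≤ N * (B2 - A2) := hr2.trans (Nat.mul_le_mul_right _ hNs)
    have h3 : N * B2 = N * A2 + N * (B2 - A2) := by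
      rw [← Nat.mul_add]; congr 1; omega
    have h4 : (N + 1) * A2 = N * A2 + A2 := by ring
    omega
  obtain ⟨x, hx, hxs⟩ := exists_split (by omega : 0 < N) hNA hNB
  set m := 2 * u / s with hm
  have hm1 : m * s ≤ 2 * u := Nat.div_mul_le_self _ _
  have hm2 : 2 * u < m * s + s := by
    have := Nat.div_add_mod (2 * u) s
    have h2 := Nat.mod_lt (2 * u) hspos
    rw [← hm] at this
    rw [mul_comm s m] at this
    omega
  have hm3 : 2 * A2 ≤ m := by
    rw [hm, Nat.le_div_iff_mul_le hspos]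
    calc 2 * A2 * s = 2 * (s * A2) := by ring
      _ ≤ 2 * u := Nat.mul_le_mul_left 2 hu1
  have hmpos : 0 < m := by omega
  have hmk : m ≤ k ^ c3 := by
    refine le_trans ?_ hu3
    rw [hm]
    exact Nat.div_le_self _ _
  have hO : OA N m := by
    apply hT N (by omega)
    calc N ^ C ≤ ((k + 2) * s) ^ C := Nat.pow_le_pow_left hNu C
      _ ≤ A2 := hA2
      _ ≤ m := by omega
  rw [← hxs]
  -- real numbers
  have hkeR : (0 : ℝ) < (k : ℝ) ^ e := by positivity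
  have hke1 : (1 : ℝ) ≤ (k : ℝ) ^ e := by
    apply one_le_pow₀
    have : (3 : ℝ) ≤ k := by exact_mod_cast hk
    linarith
  set δ : ℝ := 1 / (12 * (k : ℝ) ^ e) with hδ
  have hδ0 : 0 < δ := by positivity
  have hδ1 : δ ≤ 1 / 12 := by
    rw [hδ]
    apply one_div_le_one_div_of_le (by norm_num)
    linarith
  have hδk : δ * (12 * (k : ℝ) ^ e) = 1 := by
    rw [hδ]; field_simp
  set sR : ℝ := (s : ℝ) with hsR
  have hsRpos : 0 < sR := by rw [hsR]; exact_mod_cast hspos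
  set μ : ℝ := ((∑ i, x i : ℕ) : ℝ) / m with hμ
  have hmR : (0 : ℝ) < m := by exact_mod_cast hmpos
  have hμm : μ * m = u := by
    rw [hμ, hxs]; field_simp
  have hμlow : sR / 2 ≤ μ := by
    have h1 : (m : ℝ) * s ≤ 2 * u := by exact_mod_cast hm1
    have h2 : sR / 2 * m ≤ μ * m := by
      rw [hμm, hsR]; linarith
    exact le_of_mul_le_mul_right h2 hmR
  have hABR : (B1 : ℝ) ≤ 2 * A1 := by exact_mod_cast hB1
  have hr1R : (A1 : ℝ) ≤ (k : ℝ) ^ e * ((B1 : ℝ) - A1) := by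
    have : ((A1 : ℕ) : ℝ) ≤ ((k ^ e * (B1 - A1) : ℕ) : ℝ) := by exact_mod_cast hr1
    rw [Nat.cast_mul, Nat.cast_sub hAB1] at this
    push_cast at this
    exact this
  have hsAB : sR = A1 + B1 := by rw [hsR, hs]; push_cast; ring
  -- `4 δ s ≤ B1 - A1`
  have hδs : 4 * δ * sR ≤ (B1 : ℝ) - A1 := by
    have h1 : 4 * δ * sR ≤ 12 * δ * A1 := by
      rw [hsAB]
      nlinarith
    have h2 : 12 * δ * A1 ≤ 12 * δ * ((k : ℝ) ^ e * ((B1 : ℝ) - A1)) := by
      apply mul_le_mul_of_nonneg_left hr1R (by positivity)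
    have h3 : 12 * δ * ((k : ℝ) ^ e * ((B1 : ℝ) - A1)) = (B1 : ℝ) - A1 := by
      calc 12 * δ * ((k : ℝ) ^ e * ((B1 : ℝ) - A1)) =
          (δ * (12 * (k : ℝ) ^ e)) * ((B1 : ℝ) - A1) := by ring
        _ = _ := by rw [hδk, one_mul]
    linarith
  have hμup : μ ≤ sR / 2 * (1 + δ) := by
    have h1 : 2 * (u : ℝ) < m * s + s := by exact_mod_cast hm2
    have h2 : sR ≤ u * δ := by
      have h3 : 12 * (k : ℝ) ^ e * sR ≤ u := by
        have h4 : 12 * k ^ e * s ≤ u := by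
          calc 12 * k ^ e * s ≤ A2 * s := Nat.mul_le_mul_right _ hAe
            _ = s * A2 := mul_comm _ _
            _ ≤ u := hu1
        rw [hsR]
        exact_mod_cast h4
      calc sR = δ * (12 * (k : ℝ) ^ e) * sR := by rw [hδk, one_mul]
        _ = δ * (12 * (k : ℝ) ^ e * sR) := by ring
        _ ≤ δ * u := mul_le_mul_of_nonneg_left h3 hδ0.le
        _ = u * δ := by ring
    have h5 : μ * m ≤ sR / 2 * (1 + δ) * m := by
      rw [hμm]
      have h6 : 2 * (u : ℝ) - sR ≤ sR * m := by rw [hsR]; linarith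
      have h7 : (2 * (u : ℝ) - sR) * (1 + δ) ≤ sR * m * (1 + δ) :=
        mul_le_mul_of_nonneg_right h6 (by linarith)
      have h8 : 2 * (u : ℝ) ≤ (2 * (u : ℝ) - sR) * (1 + δ) := by
        have h9 : (2 * (u : ℝ) - sR) * (1 + δ) = 2 * u + (2 * (u * δ) - sR * (1 + δ)) := by ring
        have h10 : sR * (1 + δ) ≤ 2 * (u * δ) := by
          have : sR * (1 + δ) ≤ sR * 2 := by
            apply mul_le_mul_of_nonneg_left (by linarith) hsRpos.le
          linarith
        linarith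
      linarith
    exact le_of_mul_le_mul_right h5 hmR
  have hμ0 : 0 ≤ μ := by linarith
  refine ig_balanced hO (by omega) x ?_ δ hδ0 (by linarith) A1 B1 μ hμ ?_ ?_ hμ0 ?_ hI1 ?_
  · intro i
    have := (hx i).2
    omega
  · -- `A1 ≤ (1 - 2 δ) μ`
    have h1 : (1 - 2 * δ) * (sR / 2) ≤ (1 - 2 * δ) * μ :=
      mul_le_mul_of_nonneg_left hμlow (by linarith)
    refine le_trans ?_ h1
    have h2 : (1 - 2 * δ) * (sR / 2) = sR / 2 - δ * sR := by ring
    have h3 : sR / 2 = A1 + ((B1 : ℝ) - A1) / 2 := by rw [hsAB]; ring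
    rw [h2, h3]
    nlinarith [mul_pos hδ0 hsRpos]
  · have h1 : (1 + 2 * δ) * μ ≤ (1 + 2 * δ) * (sR / 2 * (1 + δ)) :=
      mul_le_mul_of_nonneg_left hμup (by linarith)
    refine le_trans h1 ?_
    have h2 : (1 + 2 * δ) * (sR / 2 * (1 + δ)) ≤ sR / 2 * (1 + 4 * δ) := by
      have : (1 + 2 * δ) * (1 + δ) ≤ 1 + 4 * δ := by nlinarith
      calc (1 + 2 * δ) * (sR / 2 * (1 + δ)) = sR / 2 * ((1 + 2 * δ) * (1 + δ)) := by ring
        _ ≤ _ := mul_le_mul_of_nonneg_left this (by linarith)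
    refine le_trans h2 ?_
    have h3 : sR / 2 * (1 + 4 * δ) = sR / 2 + 4 * δ * sR / 2 := by ring
    have h4 : sR / 2 = B1 - ((B1 : ℝ) - A1) / 2 := by rw [hsAB]; ring
    rw [h3, h4]
    linarith
  · -- the union bound
    have h1 : ((2 * c3 + 1 : ℕ) : ℝ) * k ≤ δ ^ 2 / 2 * μ := by
      have h2 : 288 * ((k : ℝ) ^ e) ^ 2 * (((2 * c3 + 1 : ℕ) : ℝ) * k) ≤ A1 := by
        exact_mod_cast hA1
      have h3 : (A1 : ℝ) ≤ μ := by
        refine le_trans ?_ hμlow
        rw [hsAB]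
        have : (A1 : ℝ) ≤ B1 := by exact_mod_cast hAB1
        linarith
      have h4 : δ ^ 2 / 2 * (288 * ((k : ℝ) ^ e) ^ 2) = 1 := by
        have : δ ^ 2 / 2 * (288 * ((k : ℝ) ^ e) ^ 2) = (δ * (12 * (k : ℝ) ^ e)) ^ 2 := by ring
        rw [this, hδk, one_pow]
      calc ((2 * c3 + 1 : ℕ) : ℝ) * k
          = δ ^ 2 / 2 * (288 * ((k : ℝ) ^ e) ^ 2) * (((2 * c3 + 1 : ℕ) : ℝ) * k) := by
            rw [h4, one_mul]
        _ = δ ^ 2 / 2 * (288 * ((k : ℝ) ^ e) ^ 2 * (((2 * c3 + 1 : ℕ) : ℝ) * k)) := by ring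
        _ ≤ δ ^ 2 / 2 * μ := by
            apply mul_le_mul_of_nonneg_left (h2.trans h3) (by positivity)
    have h5 : (k : ℝ) ^ (2 * c3 + 1) ≤ Real.exp (((2 * c3 + 1 : ℕ) : ℝ) * k) := by
      rw [Real.exp_nat_mul]
      apply pow_le_pow_left₀ (by positivity)
      have := Real.add_one_le_exp (k : ℝ)
      linarith
    have h6 : 2 * (m : ℝ) ^ 2 < (k : ℝ) ^ (2 * c3 + 1) := by
      have h7 : 2 * m ^ 2 < k ^ (2 * c3 + 1) := by
        have h8 : m ^ 2 ≤ (k ^ c3) ^ 2 := Nat.pow_le_pow_left hmk 2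
        have h9 : k ^ (2 * c3 + 1) = k * (k ^ c3) ^ 2 := by
          rw [pow_succ, ← pow_mul, mul_comm c3 2, mul_comm]
        have h10 : 0 < (k ^ c3) ^ 2 := by positivity
        rw [h9]
        calc 2 * m ^ 2 ≤ 2 * (k ^ c3) ^ 2 := Nat.mul_le_mul_left 2 h8
          _ < k * (k ^ c3) ^ 2 := Nat.mul_lt_mul_of_pos_right (by omega) h10
      have h11 : ((2 * m ^ 2 : ℕ) : ℝ) < ((k ^ (2 * c3 + 1) : ℕ) : ℝ) := Nat.cast_lt.2 h7
      push_cast at h11
      exact h11
    calc 2 * (m : ℝ) ^ 2 < (k : ℝ) ^ (2 * c3 + 1) := h6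
      _ ≤ Real.exp (((2 * c3 + 1 : ℕ) : ℝ) * k) := h5
      _ ≤ _ := Real.exp_le_exp.2 h1
  · intro i
    exact hI2 _ (hx i).1 (hx i).2

/-- a linear function is dominated by a power of two -/
theorem exists_exp_dom (a b : ℕ) : ∃ s : ℕ, a * (s + 1) + b ≤ 2 ^ s := by
  refine ⟨2 * (2 * a + b + a), ?_⟩
  set t := 2 * a + b + a with ht
  have h1 : t < 2 ^ t := Nat.lt_two_pow_self
  have h2 : 2 ^ (2 * t) = 2 ^ t * 2 ^ t := by rw [two_mul, pow_add]
  rw [h2]
  have h3 : (t + 1) * (t + 1) ≤ 2 ^ t * 2 ^ t := Nat.mul_le_mul h1 h1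
  have h4 : a * (2 * t + 1) + b ≤ (t + 1) * (t + 1) := by
    nlinarith
  omega

/-- a whole range of values -/
theorem mid_range {C e f : ℕ} (hT : ∀ N : ℕ, 2 ≤ N → ∀ n : ℕ, N ^ C ≤ n → OA N n)
    (hC : 1 ≤ C) :
    ∃ c : ℕ, ∀ k : ℕ, 3 ≤ k → ∀ b g : ℕ, Ivl b k g e f → ∃ U : ℕ, (k + 2) ^ C ≤ U ∧ U ≤ k ^ c ∧
      ∀ u, U ≤ u → u ≤ (k + 2) * U → IG {b} g u 0 := by
  -- the parameters
  obtain ⟨s1, hs1⟩ := exists_exp_dom (288 * (2 * (C + 1)))
    (288 * (2 * (2 * e + (2 * e + f + 3) * C + (e + 3) + 2 * f + 4) + 1))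
  set m1 := 2 * e + (s1 + 1) with hm1
  set m2 := (m1 + f + 3) * C + (e + 3) with hm2
  set c3 := m1 + m2 + 2 * f + 4 with hc3
  have hkey : 288 * (2 * c3 + 1) ≤ 2 ^ s1 := by
    refine le_trans (le_of_eq ?_) hs1
    rw [hc3, hm2, hm1]
    ring
  refine ⟨m1 + f + 1 + (m2 + f), ?_⟩
  intro k hk b g hI
  obtain ⟨A1, B1, h11, h12, h13, h14, h15, h16⟩ := hI m1
  obtain ⟨A2, B2, h21, h22, h23, h24, h25, h26⟩ := hI m2
  have hk1 : 1 ≤ k := by omega
  have hs : A1 + B1 ≤ k ^ (m1 + f + 1) := by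
    rw [pow_succ]
    calc A1 + B1 ≤ 3 * A1 := by omega
      _ ≤ A1 * k := by rw [mul_comm]; exact Nat.mul_le_mul_left _ hk
      _ ≤ _ := Nat.mul_le_mul_right _ h12
  have hk2 : k + 2 ≤ k ^ 2 := by nlinarith
  have hA1 : 288 * (k ^ e) ^ 2 * ((2 * c3 + 1) * k) ≤ A1 := by
    refine le_trans ?_ h11
    have e1 : k ^ m1 = (k ^ e) ^ 2 * k * k ^ s1 := by
      rw [hm1, ← pow_mul, ← pow_succ, ← pow_add]
      congr 1
      omega
    rw [e1]
    have h2 : 2 ^ s1 ≤ k ^ s1 := Nat.pow_le_pow_left (by omega) s1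
    calc 288 * (k ^ e) ^ 2 * ((2 * c3 + 1) * k) = (k ^ e) ^ 2 * k * (288 * (2 * c3 + 1)) := by ring
      _ ≤ (k ^ e) ^ 2 * k * k ^ s1 := Nat.mul_le_mul_left _ (hkey.trans h2)
  have hA2 : ((k + 2) * (A1 + B1)) ^ C ≤ A2 := by
    refine le_trans ?_ h21
    calc ((k + 2) * (A1 + B1)) ^ C ≤ (k ^ 2 * k ^ (m1 + f + 1)) ^ C :=
          Nat.pow_le_pow_left (Nat.mul_le_mul hk2 hs) C
      _ = k ^ ((m1 + f + 3) * C) := by
          rw [← pow_add, ← pow_mul]
          congr 2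
          omega
      _ ≤ k ^ m2 := Nat.pow_le_pow_right (by omega) (by omega)
  have hAe : 12 * k ^ e ≤ A2 := by
    refine le_trans ?_ h21
    calc 12 * k ^ e ≤ k ^ 3 * k ^ e := by
          apply Nat.mul_le_mul_right
          calc 12 ≤ 3 ^ 3 := by norm_num
            _ ≤ k ^ 3 := Nat.pow_le_pow_left hk 3
      _ = k ^ (3 + e) := by rw [pow_add]
      _ ≤ k ^ m2 := Nat.pow_le_pow_right (by omega) (by omega)
  have hr2 : A2 ≤ (A1 + B1) * (B2 - A2) := by
    refine h25.trans (Nat.mul_le_mul_right _ ?_)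
    calc k ^ e ≤ k ^ m1 := Nat.pow_le_pow_right (by omega) (by omega)
      _ ≤ A1 := h11
      _ ≤ _ := Nat.le_add_right _ _
  refine ⟨(A1 + B1) * A2, ?_, ?_, ?_⟩
  · have hpos : 0 < A1 + B1 := by
      have : 0 < k ^ m1 := by positivity
      omega
    calc (k + 2) ^ C ≤ ((k + 2) * (A1 + B1)) ^ C :=
          Nat.pow_le_pow_left (Nat.le_mul_of_pos_right _ hpos) C
      _ ≤ A2 := hA2
      _ ≤ _ := Nat.le_mul_of_pos_left _ hpos
  · rw [pow_add]
    exact Nat.mul_le_mul hs h22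
  · intro u hu1 hu2
    refine one_value (C := C) (e := e) (c3 := c3) hT hk hA1 h13 h14 h15 h16 hA2 hAe h24 h23 hr2
      h26 hu1 hu2 ?_
    calc 2 * u ≤ 2 * ((k + 2) * ((A1 + B1) * A2)) := Nat.mul_le_mul_left 2 hu2
      _ = (2 * (k + 2)) * ((A1 + B1) * A2) := by ring
      _ ≤ k ^ 3 * (k ^ (m1 + f + 1) * k ^ (m2 + f)) := by
          apply Nat.mul_le_mul _ (Nat.mul_le_mul hs h22)
          have : k ^ 3 = k * (k * k) := by ring
          rw [this]
          nlinarith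
      _ = k ^ c3 := by
          rw [← pow_add, ← pow_add]
          congr 1
          omega

/-- all large values -/
theorem all_large {C e f : ℕ} (hT : ∀ N : ℕ, 2 ≤ N → ∀ n : ℕ, N ^ C ≤ n → OA N n)
    (hC : 2 ≤ C) :
    ∃ c : ℕ, ∀ k : ℕ, 3 ≤ k → ∀ b g : ℕ, Ivl b k g e f → IG {b} g k 0 → IG {b} g (k + 1) 0 →
      ∀ u, k ^ c ≤ u → IG {b} g u 0 := by
  obtain ⟨c, hc⟩ := mid_range (e := e) (f := f) hT (by omega)
  refine ⟨c, ?_⟩
  intro k hk b g hI hk0 hk1 u hu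
  obtain ⟨U, hU1, hU2, hU3⟩ := hc k hk b g hI
  have hUk : (k + 2) * (k + 2) ≤ U := by
    refine le_trans ?_ hU1
    calc (k + 2) * (k + 2) = (k + 2) ^ 2 := (sq _).symm
      _ ≤ (k + 2) ^ C := Nat.pow_le_pow_right (by omega) hC
  have main : ∀ u, U ≤ u → IG {b} g u 0 := by
    intro u
    induction u using Nat.strong_induction_on with
    | _ u ih =>
      intro hu
      by_cases h : u ≤ (k + 2) * U
      · exact hU3 u hu h
      · push Not at h
        set r := (u - U) % k with hr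
        set t := (u - U) / k with ht
        have hdm : k * t + r = u - U := Nat.div_add_mod (u - U) k
        have hrk : r < k := Nat.mod_lt _ (by omega)
        have h1 : U + k ≤ t := by
          rw [ht, Nat.le_div_iff_mul_le (by omega)]
          have e1 : (U + k) * k + U ≤ (k + 2) * U := by nlinarith
          omega
        have h2 : t < u := by
          have : 3 * t ≤ k * t := Nat.mul_le_mul_right t hk
          omega
        have hO : OA (k + 1) t := by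
          apply hT (k + 1) (by omega)
          calc (k + 1) ^ C ≤ (k + 2) ^ C := Nat.pow_le_pow_left (by omega) C
            _ ≤ U := hU1
            _ ≤ t := by omega
        have h3 : IG {b} g t 0 := ih t h2 (by omega)
        have h4 : IG {b} g (U + r) 0 := by
          apply hU3 (U + r) (by omega)
          nlinarith
        have := ig_stepE hk0 hk1 hO h3 h4 (by omega)
        have e1 : k * t + (U + r) = u := by omega
        rwa [e1] at this
  exact main u (hU2.trans hu)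

end Pool.Agent.W865.SS
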