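import Pool.Agent.W865.SS.Tools
import Pool.Agent.W865.SS.AllLarge

/-!
# All large numbers of groups
-/

set_option autoImplicit false

namespace Pool.Agent.W865.SS

open Finset H108

open Pool.Agent.W855 (OA seqA seqA_ge seqA_le seqA_eq seqA_diff seqA_double ig_stepE ig_delete
  ig_inflateO ig_of_oa)

/-- from one scale to all larger scales -/
theorem scale_interval' {b k g : ℕ} (hk : 1 ≤ k) {a b' A0 B0 : ℕ} (hkk : IG {b} g k 0)
    (hkk1 : IG {b} g (k + 1) 0) (hO : ∀ t, A0 ≤ t → OA (k + 1) t)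
    (hs : ∀ s, a ≤ s → s ≤ b' → IG {b} g s 0) (ht : ∀ t, A0 ≤ t → t ≤ B0 → IG {b} g t 0)
    (hab : a + k ≤ b' + 1) (hbA : b' ≤ A0) (hAB0 : A0 ≤ B0) (m : ℕ) :
    ∀ u, seqA k a A0 m ≤ u → u ≤ seqA k b' B0 m → IG {b} g u 0 := by
  induction m with
  | zero => exact ht
  | succ m ih =>
    intro u hu1 hu2
    simp only [seqA] at hu1 hu2
    set A := seqA k a A0 m with hA
    set B := seqA k b' B0 m with hB
    have hA0 : A0 ≤ A := seqA_ge hk m
    have hau : a ≤ u := by omega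
    have hdiv := Nat.div_add_mod (u - a) k
    have hmod := Nat.mod_lt (u - a) hk
    have hAq : A ≤ (u - a) / k := by
      rw [Nat.le_div_iff_mul_le hk]
      rw [mul_comm]
      omega
    by_cases hq : (u - a) / k ≤ B
    · have hst : u - k * ((u - a) / k) ≤ b' := by omega
      have := ig_stepE hkk hkk1 (hO _ (hA0.trans hAq)) (ih _ hAq hq)
        (hs (u - k * ((u - a) / k)) (by omega) hst) (hst.trans (hbA.trans (hA0.trans hAq)))
      have e : k * ((u - a) / k) + (u - k * ((u - a) / k)) = u := by omega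
      rwa [e] at this
    · push Not at hq
      have h1 : k * B ≤ u - a := by
        have := Nat.mul_le_mul_left k hq.le
        omega
      have hAB : A ≤ B := seqA_le hAB0 (by omega) m
      have hst : u - k * B ≤ b' := by omega
      have := ig_stepE hkk hkk1 (hO _ (hA0.trans hAB)) (ih _ hAB le_rfl)
        (hs (u - k * B) (by omega) hst) (hst.trans (hbA.trans (hA0.trans hAB)))
      have e : k * B + (u - k * B) = u := by omega
      rwa [e] at this

/-- a power of `b` between `Y` and `b Y` -/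
theorem exists_pow {b Y : ℕ} (hb : 2 ≤ b) (hY : 1 ≤ Y) : ∃ j, 1 ≤ j ∧ Y ≤ b ^ j ∧ b ^ j ≤ b * Y := by
  by_cases h : Y = 1
  · subst h
    exact ⟨1, le_rfl, by simp; omega, by simp⟩
  · have h2 : 1 < Y := by omega
    refine ⟨Nat.clog b Y, Nat.clog_pos (by omega) h2, Nat.le_pow_clog (by omega) Y, ?_⟩
    have h3 := Nat.pow_pred_clog_lt_self (b := b) (by omega) h2
    have h4 : 0 < Nat.clog b Y := Nat.clog_pos (by omega) h2
    have h5 : b ^ Nat.clog b Y = b * b ^ (Nat.clog b Y - 1) := by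
      rw [← pow_succ']; congr 1; omega
    rw [h5]
    exact Nat.mul_le_mul_left b h3.le

section

variable {C b r g : ℕ}

theorem mem_T (hT : ∀ N : ℕ, 2 ≤ N → ∀ n : ℕ, N ^ C ≤ n → OA N n) (hb : 3 ≤ b) (hr : b ^ C ≤ r)
    (h1 : IG {b} g b 0) (h2 : IG {b} g r 0) (j : ℕ) : IG {b} g (r * b ^ j) 0 := by
  induction j with
  | zero => simpa using h2
  | succ j ih =>
    have hO : OA b (r * b ^ j) := hT b (by omega) _
      (hr.trans (Nat.le_mul_of_pos_right _ (by positivity)))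
    have := ig_prod hO h1 ih
    have e : b * (r * b ^ j) = r * b ^ (j + 1) := by rw [pow_succ]; ring
    rwa [e] at this

theorem mem_T1 (hT : ∀ N : ℕ, 2 ≤ N → ∀ n : ℕ, N ^ C ≤ n → OA N n) (hb : 3 ≤ b) (hr : b ^ C ≤ r)
    (h1 : IG {b} g b 0) (h3 : IG {b} g (b * r + 1) 0) (j : ℕ) (hj : 1 ≤ j) :
    IG {b} g (r * b ^ j + 1) 0 := by
  induction j, hj using Nat.le_induction with
  | base => rw [pow_one, mul_comm]; exact h3
  | succ j hj ih =>
    have hO : OA b (r * b ^ j) := hT b (by omega) _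
      (hr.trans (Nat.le_mul_of_pos_right _ (by positivity)))
    have := ig_prod_one hO h1 ih
    have e : b * (r * b ^ j) = r * b ^ (j + 1) := by rw [pow_succ]; ring
    rwa [e] at this

theorem hb_T (hT : ∀ N : ℕ, 2 ≤ N → ∀ n : ℕ, N ^ C ≤ n → OA N n) (hb : 3 ≤ b) (hr : b ^ C ≤ r)
    (h1 : IG {b} g b 0) (h2 : IG {b} g r 0) (j : ℕ) (hj : 1 ≤ j) :
    HB b (b * r) g (r * b ^ j) := by
  induction j, hj using Nat.le_induction with
  | base => rw [pow_one, mul_comm r b]; exact hb_base _ _ _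
  | succ j hj ih =>
    have hO : OA b (r * b ^ j) := hT b (by omega) _
      (hr.trans (Nat.le_mul_of_pos_right _ (by positivity)))
    have := hb_prod (by omega) hO h1 (mem_T hT hb hr h1 h2 j) ih
    have e : b * (r * b ^ j) = r * b ^ (j + 1) := by rw [pow_succ]; ring
    rwa [e] at this

/-- three consecutive numbers -/
theorem triple (hT : ∀ N : ℕ, 2 ≤ N → ∀ n : ℕ, N ^ C ≤ n → OA N n) (hC : 2 ≤ C) (hb : 3 ≤ b)
    (hr : b ^ C ≤ r) (h1 : IG {b} g b 0) (h2 : IG {b} g r 0) (h3 : IG {b} g (b * r + 1) 0)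
    (j : ℕ) (hj : 1 ≤ j) (hj2 : (b * r + 1) ^ C ≤ r * b ^ j) :
    IG {b} (g * (b * r)) (b * r * (r * b ^ j)) 0 ∧
    IG {b} (g * (b * r)) (b * r * (r * b ^ j) + 1) 0 ∧
    IG {b} (g * (b * r)) (b * r * (r * b ^ j) + 2) 0 := by
  have hr0 : 0 < r := lt_of_lt_of_le (by positivity) hr
  have hx0 : 0 < b * r := Nat.mul_pos (by omega) hr0
  set x := b * r with hx
  set T := r * b ^ j with hTd
  have hOT : OA b T := hT b (by omega) _ (hr.trans (Nat.le_mul_of_pos_right _ (by positivity)))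
  have hOx : OA b x := hT b (by omega) _ (hr.trans (Nat.le_mul_of_pos_left _ (by omega)))
  have hup : ∀ v, IG {b} g v 0 → IG {b} (g * x) v 0 := by
    intro v hv
    have := ig_inflateO hOx hv
    rwa [zero_mul] at this
  have hxE : IG {b} g x 0 := by
    have := mem_T hT hb hr h1 h2 1
    rwa [pow_one, mul_comm r b] at this
  have hTE : IG {b} g T 0 := mem_T hT hb hr h1 h2 j
  have hT1E : IG {b} g (T + 1) 0 := mem_T1 hT hb hr h1 h3 j hj
  have hO : OA (x + 1) T := hT _ (by omega) _ hj2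
  have hxT : x + 1 ≤ T := by
    refine le_trans ?_ hj2
    exact Nat.le_self_pow (by omega) _
  refine ⟨hup _ (ig_prod hOT hxE hTE), hup _ (ig_prod_one hOT hxE hT1E), ?_⟩
  have h4 := hb_step hx0 hxE h3 hO hTE (hb_T hT hb hr h1 h2 j hj) h3 hxT
  have h5 := h4.2
  have e : x * T + (x + 1) - b * r = x * T + 1 := by omega
  rw [e] at h5
  refine ig_shift' hx0 h5 ?_ hxE
  refine hT _ (by omega) _ (hj2.trans ?_)
  have : T ≤ x * T := Nat.le_mul_of_pos_left _ hx0
  omega

/-- base intervals -/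
theorem base_int (hT : ∀ N : ℕ, 2 ≤ N → ∀ n : ℕ, N ^ C ≤ n → OA N n) (hC : 2 ≤ C) {G M : ℕ}
    (hM : 1 ≤ M) (k0 : IG {b} G M 0) (k1 : IG {b} G (M + 1) 0) (k2 : IG {b} G (M + 2) 0) {T : ℕ}
    (hT0 : IG {b} G T 0) (hT1 : IG {b} G (T + 1) 0) (hMT : (M + 2) ^ C ≤ T) {u : ℕ}
    (hu1 : (M + 2) * T ≤ u) (hu2 : u ≤ (M + 2) * T + (M + 2)) : IG {b} G u 0 := by
  have hO : OA (M + 2) (T + 1) := hT _ (by omega) _ (by omega)
  have hsq : (M + 2) * (M + 2) < T + 1 := by
    calc (M + 2) * (M + 2) = (M + 2) ^ 2 := (sq _).symm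
      _ ≤ (M + 2) ^ C := Nat.pow_le_pow_right (by omega) hC
      _ ≤ T := hMT
      _ < T + 1 := Nat.lt_succ_self _
  have e1 : (M + 2) * (T + 1) = (M + 2) * T + (M + 2) := by ring
  have := ig_delete (k := b) (g := G) (δ := (M + 2) * T + (M + 2) - u) hO hsq
    (by omega) (by simpa using k0) (by simpa using k1) k2 (by simpa using hT0) hT1
  rw [e1] at this
  have e2 : (M + 2) * T + (M + 2) - ((M + 2) * T + (M + 2) - u) = u := by
    omega
  rwa [e2] at this

end

/-- all large numbers of groups -/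
theorem thmD {C : ℕ} (hT : ∀ N : ℕ, 2 ≤ N → ∀ n : ℕ, N ^ C ≤ n → OA N n) (hC : 2 ≤ C) :
    ∃ c : ℕ, ∀ b : ℕ, 3 ≤ b → ∀ r : ℕ, b ^ C ≤ r → ∀ g : ℕ, IG {b} g b 0 → IG {b} g r 0 →
      IG {b} g (b * r + 1) 0 → ∀ u, (b * r) ^ c ≤ u → IG {b} (g * (b * r)) u 0 := by
  set F := 3 + (2 * C + 3) * (C + 1) with hF
  obtain ⟨c, hc⟩ := all_large (e := F) (f := F) hT hC
  refine ⟨c, ?_⟩
  intro b hb r hr g h1 h2 h3
  have hr0 : 0 < r := lt_of_lt_of_le (by positivity) hr
  set x := b * r with hx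
  have hx3 : 3 ≤ x := hb.trans (Nat.le_mul_of_pos_right _ hr0)
  have hbx : b ≤ x := Nat.le_mul_of_pos_right _ hr0
  have hrx : r ≤ x := Nat.le_mul_of_pos_left _ (by omega)
  have hOx : OA b x := hT b (by omega) _ (hr.trans (Nat.le_mul_of_pos_left _ (by omega)))
  have hup : ∀ v, IG {b} g v 0 → IG {b} (g * x) v 0 := by
    intro v hv
    have := ig_inflateO hOx hv
    rwa [zero_mul] at this
  have hxE : IG {b} g x 0 := by
    have := mem_T hT hb hr h1 h2 1
    rwa [pow_one, mul_comm r b] at this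
  obtain ⟨j0, hj0, hj01, hj02⟩ := exists_pow (b := b) (Y := (x + 1) ^ C) (by omega)
    (Nat.one_le_pow _ _ (by omega))
  have hT0 : (x + 1) ^ C ≤ r * b ^ j0 := hj01.trans (Nat.le_mul_of_pos_left _ hr0)
  obtain ⟨t0, t1, t2⟩ := triple hT hC hb hr h1 h2 h3 j0 hj0 hT0
  rw [← hx] at t0 t1 t2
  set M := x * (r * b ^ j0) with hM
  have hM1 : 1 ≤ M := Nat.mul_pos (by omega) (Nat.mul_pos hr0 (by positivity))
  set N := M + 2 with hN
  obtain ⟨j1, hj1, hj11, hj12⟩ := exists_pow (b := b) (Y := N ^ C) (by omega)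
    (Nat.one_le_pow _ _ (by omega))
  set S := r * b ^ j1 with hS
  have hSN : N ^ C ≤ S := hj11.trans (Nat.le_mul_of_pos_left _ hr0)
  have hS1 : 1 ≤ S := le_trans (Nat.one_le_pow _ _ (by omega)) hSN
  have hS2 : r * b ^ (j1 + 1) = b * S := by rw [hS, pow_succ]; ring
  -- sizes
  have hx2 : x + 1 ≤ x ^ 2 := by nlinarith
  have hMle : M ≤ x ^ (2 * C + 2) := by
    calc M ≤ x * (r * (b * (x + 1) ^ C)) := by rw [hM]; gcongr
      _ = x * (b * r) * (x + 1) ^ C := by ring
      _ ≤ x * x * (x ^ 2) ^ C := by rw [← hx]; gcongr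
      _ = x ^ (2 * C + 2) := by rw [← pow_mul, pow_add]; ring
  have hNle : N ≤ x ^ (2 * C + 3) := by
    have h4 : 2 ≤ x ^ (2 * C + 2) := by
      calc 2 ≤ x := by omega
        _ = x ^ 1 := (pow_one x).symm
        _ ≤ x ^ (2 * C + 2) := Nat.pow_le_pow_right (by omega) (by omega)
    have h5 : x ^ (2 * C + 3) = x * x ^ (2 * C + 2) := by rw [← pow_succ']
    rw [h5]
    nlinarith
  have hSle : S ≤ x * N ^ C := by
    calc S ≤ r * (b * N ^ C) := by rw [hS]; gcongr
      _ = x * N ^ C := by rw [hx]; ring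
  have hxN : x ≤ N := by
    have : x ≤ M := Nat.le_mul_of_pos_right _ (Nat.mul_pos hr0 (by positivity))
    omega
  set a := N * S with ha
  set A0 := N * (b * S) with hA0
  have hA0le : x * A0 ≤ x ^ F := by
    calc x * A0 ≤ x * (N * (x * (x * N ^ C))) := by rw [hA0]; gcongr
      _ = x ^ 3 * N ^ (C + 1) := by ring
      _ ≤ x ^ 3 * (x ^ (2 * C + 3)) ^ (C + 1) := by gcongr
      _ = x ^ F := by rw [hF, ← pow_mul, ← pow_add]
  have hA0pos : 0 < A0 := Nat.mul_pos (by omega) (Nat.mul_pos (by omega) hS1)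
  have haA : a ≤ A0 := by
    rw [ha, hA0]
    exact Nat.mul_le_mul_left _ (Nat.le_mul_of_pos_left _ (by omega))
  have hNa : N ≤ a := Nat.le_mul_of_pos_right _ hS1
  have haNA : a + N ≤ A0 := by
    have : N * (S + 1) ≤ N * (b * S) := by
      apply Nat.mul_le_mul_left
      nlinarith
    calc a + N = N * (S + 1) := by rw [ha]; ring
      _ ≤ A0 := this
  have hSE : IG {b} (g * x) S 0 := hup _ (mem_T hT hb hr h1 h2 j1)
  have hSE1 : IG {b} (g * x) (S + 1) 0 := hup _ (mem_T1 hT hb hr h1 h3 j1 hj1)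
  have hSE' : IG {b} (g * x) (b * S) 0 := by
    rw [← hS2]; exact hup _ (mem_T hT hb hr h1 h2 (j1 + 1))
  have hSE1' : IG {b} (g * x) (b * S + 1) 0 := by
    rw [← hS2]; exact hup _ (mem_T1 hT hb hr h1 h3 (j1 + 1) (by omega))
  have hsc : ∀ m u, seqA x a A0 m ≤ u → u ≤ seqA x (a + N) (A0 + N) m → IG {b} (g * x) u 0 := by
    intro m
    refine scale_interval' (by omega) (hup _ hxE) (hup _ h3) ?_ ?_ ?_ (by omega) haNA
      (Nat.le_add_right _ _) m
    · intro t ht
      refine hT _ (by omega) _ (le_trans ?_ ht)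
      calc (x + 1) ^ C ≤ N ^ C := Nat.pow_le_pow_left (by
              have : x * 1 ≤ x * (r * b ^ j0) := Nat.mul_le_mul_left x
                (Nat.mul_pos hr0 (by positivity))
              omega) C
        _ ≤ S := hSN
        _ ≤ b * S := Nat.le_mul_of_pos_left _ (by omega)
        _ ≤ A0 := Nat.le_mul_of_pos_left _ (by omega)
    · intro s hs1 hs2
      exact base_int hT hC hM1 t0 t1 t2 hSE hSE1 hSN hs1 hs2
    · intro s hs1 hs2
      refine base_int hT hC hM1 t0 t1 t2 hSE' hSE1' ?_ hs1 hs2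
      exact hSN.trans (Nat.le_mul_of_pos_left _ (by omega))
  have hI : Ivl b x (g * x) F F := by
    intro m
    have heq := seqA_eq (k := x) (a := a) (A0 := A0) (by omega) m
    have hkm : 1 ≤ x ^ m := Nat.one_le_pow _ _ (by omega)
    have hlow : x ^ m * A0 ≤ seqA x a A0 m := by
      have h4 : a ≤ x ^ m * a := Nat.le_mul_of_pos_left _ hkm
      have h5 : (x - 1) * (x ^ m * A0) ≤ (x - 1) * seqA x a A0 m := by
        have e : x ^ m * ((x - 1) * A0 + a) = (x - 1) * (x ^ m * A0) + x ^ m * a := by ring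
        omega
      exact Nat.le_of_mul_le_mul_left h5 (by omega)
    have hupp : seqA x a A0 m ≤ x ^ m * (2 * A0) := by
      have h5 : (x - 1) * seqA x a A0 m ≤ (x - 1) * (x ^ m * (2 * A0)) := by
        have e : x ^ m * ((x - 1) * A0 + a) = (x - 1) * (x ^ m * A0) + x ^ m * a := by ring
        have e2 : (x - 1) * (x ^ m * (2 * A0)) =
            (x - 1) * (x ^ m * A0) + (x - 1) * (x ^ m * A0) := by ring
        have h6 : x ^ m * a ≤ (x - 1) * (x ^ m * A0) := by
          calc x ^ m * a ≤ x ^ m * A0 := Nat.mul_le_mul_left _ haA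
            _ ≤ _ := Nat.le_mul_of_pos_left _ (by omega)
        omega
      exact Nat.le_of_mul_le_mul_left h5 (by omega)
    have hdiff : seqA x a A0 m + x ^ m * N ≤ seqA x (a + N) (A0 + N) m := seqA_diff rfl m
    have hdouble : seqA x (a + N) (A0 + N) m ≤ 2 * seqA x a A0 m :=
      seqA_double (by omega) (by omega) m
    have h2A : 2 * A0 ≤ x ^ F := le_trans (Nat.mul_le_mul_right _ (by omega)) hA0le
    refine ⟨seqA x a A0 m, seqA x (a + N) (A0 + N) m, ?_, ?_, by omega, hdouble, ?_, hsc m⟩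
    · exact le_trans (Nat.le_mul_of_pos_right _ hA0pos) hlow
    · refine hupp.trans ?_
      rw [pow_add]
      exact Nat.mul_le_mul_left _ h2A
    · calc seqA x a A0 m ≤ x ^ m * (2 * A0) := hupp
        _ ≤ x ^ m * x ^ F := Nat.mul_le_mul_left _ h2A
        _ = x ^ F * (x ^ m * 1) := by ring
        _ ≤ x ^ F * (x ^ m * N) := by gcongr; omega
        _ ≤ _ := Nat.mul_le_mul_left _ (by omega)
  exact hc x hx3 b (g * x) hI (hup _ hxE) (hup _ h3)

end Pool.Agent.W865.SS
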