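import Pool.Agent.W865.SS.Steiner

/-!
# Projective geometries as seeds
-/

set_option autoImplicit false

namespace Pool.Agent.W865.SS

open Finset H108

open Pool.Agent.W855 (OA PP pp_ge pp_le nice_pp oa_of_nice_succ ig_of_oa)

theorem pp_succ' (Q j : ℕ) : PP Q (j + 1) = Q ^ (j + 1) + PP Q j := by
  induction j with
  | zero => simp [PP]
  | succ j ih =>
    have h1 : PP Q (j + 1 + 1) = Q * PP Q (j + 1) + 1 := rfl
    have h2 : PP Q (j + 1) = Q * PP Q j + 1 := rfl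
    rw [h1, ih]
    rw [ih] at h2
    rw [pow_succ Q (j + 1)]
    have e : Q * (Q ^ (j + 1) + PP Q j) + 1 = Q ^ (j + 1) * Q + (Q * PP Q j + 1) := by ring
    rw [e, ← h2]

/-- projective geometry minus a hyperplane, with the hyperplane as a hole -/
theorem pg_hole {Q : ℕ} (hQ : IsPrimePow Q) (j : ℕ) :
    IG {Q + 1} 1 (Q ^ (j + 1)) (PP Q j) := by
  induction j with
  | zero =>
    have h : IG {Q + 1} 1 Q 1 := (ig_hole_iff _ _ _).2 (ig_block (Q + 1))
    simpa [PP] using h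
  | succ j ih =>
    have h1 : IG {Q + 1} (1 * Q ^ (j + 1)) (Q + 1) 0 := by
      rw [one_mul]
      exact ig_of_oa (oa_of_nice_succ (nice_pp hQ (j + 1) (by omega)))
    have h2 := ig_fillHole h1 ih
    rw [one_mul, ← pp_succ', ← pow_succ'] at h2
    exact h2

/-- the lines of a projective geometry -/
theorem pg {Q : ℕ} (hQ : IsPrimePow Q) (j : ℕ) : IG {Q + 1} 1 (PP Q j) 0 := by
  induction j with
  | zero => exact ig_one _ _
  | succ j ih =>
    rw [pp_succ']
    refine ig_comp (K := {Q + 1}) (g := 1) (w := 0) ?_ ih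
    rw [one_mul, add_zero]
    exact pg_hole hQ j

/-- block sizes `q` with `q - 1` a prime power -/
theorem plus_one : ∃ K : ℕ, ∀ q : ℕ, IsPrimePow (q - 1) → ∀ n : ℕ, q ^ K ≤ n →
    (n ≡ 1 [MOD q * (q - 1)] ∨ n ≡ q [MOD q * (q - 1)]) → IG {q} 1 n 0 := by
  obtain ⟨K, hK⟩ := persist
  refine ⟨(2 * K + 1) * K, ?_⟩
  intro q hq n hn hmod
  have hQ2 : 2 ≤ q - 1 := hq.two_le
  obtain ⟨Q, rfl⟩ : ∃ Q, q = Q + 1 := ⟨q - 1, by omega⟩
  simp only [Nat.add_sub_cancel] at *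
  have h1 : (Q + 1) ^ K ≤ PP Q (2 * K) := by
    calc (Q + 1) ^ K ≤ (Q ^ 2) ^ K := Nat.pow_le_pow_left (by nlinarith) K
      _ = Q ^ (2 * K) := by rw [← pow_mul]
      _ ≤ _ := pp_ge _
  have h2 : PP Q (2 * K) ≤ (Q + 1) ^ (2 * K + 1) :=
    (pp_le hQ2 (2 * K)).le.trans (Nat.pow_le_pow_left (by omega) _)
  have h3 : Q ∣ PP Q (2 * K) - 1 := by
    cases (2 * K) with
    | zero => simp [PP]
    | succ j =>
      have : PP Q (j + 1) = Q * PP Q j + 1 := rfl
      rw [this, Nat.add_sub_cancel]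
      exact dvd_mul_right _ _
  refine hK (Q + 1) (by omega) (PP Q (2 * K)) h1 (pg hq (2 * K)) (by simpa using h3) n ?_ ?_
  · refine le_trans ?_ hn
    rw [pow_mul]
    exact Nat.pow_le_pow_left h2 K
  · simpa using Or.inr hmod

end Pool.Agent.W865.SS
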