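import Pool.Agent.W865.SS.Core
import Pool.Agent.W855.Conv

/-!
# One large Steiner system gives all larger ones of its residue class
-/

set_option autoImplicit false

namespace Pool.Agent.W865.SS

open Finset H108

open Pool.Agent.W855 (OA RR ig_stepE ig_inflateO ig_of_oa rr_mul rr_mul_add steiner_of_rr td_gen)

section

variable {C b : ℕ}

theorem rr_b (hT : ∀ N : ℕ, 2 ≤ N → ∀ n : ℕ, N ^ C ≤ n → OA N n) (hb : 3 ≤ b) {ρ : ℕ}
    (hρ : b ^ C ≤ ρ) (h : RR b ρ) : RR b (b * ρ) := by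
  rw [mul_comm]
  refine rr_mul h (ig_of_oa (hT b (by omega) _ (hρ.trans ?_)))
  exact Nat.le_mul_of_pos_left _ (by omega)

theorem rr_b1 (hT : ∀ N : ℕ, 2 ≤ N → ∀ n : ℕ, N ^ C ≤ n → OA N n) (hb : 3 ≤ b) {ρ : ℕ}
    (hρ : b ^ C ≤ ρ) (h : RR b ρ) : RR b (b * ρ + 1) := by
  have h1 : IG {b} 1 ((b - 1) * ρ + 1) 0 := steiner_of_rr (by omega) h
  have hO : OA b ((b - 1) * ρ + 1) := hT b (by omega) _ (hρ.trans (by
    have : ρ ≤ (b - 1) * ρ := Nat.le_mul_of_pos_left _ (by omega)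
    omega))
  have h2 := ig_prod hO (ig_block b) h1
  apply ig_delete_point (by omega)
  have e : b * ((b - 1) * ρ + 1) = (b - 1) * (b * ρ + 1) + 1 := by
    obtain ⟨l, rfl⟩ : ∃ l, b = l + 1 := ⟨b - 1, by omega⟩
    simp only [Nat.add_sub_cancel]
    ring
  rwa [← e]

theorem rr_prod (hT : ∀ N : ℕ, 2 ≤ N → ∀ n : ℕ, N ^ C ≤ n → OA N n) (hb : 3 ≤ b) {ρ σ : ℕ}
    (hρ : b ^ C ≤ ρ) (h : RR b ρ) (h' : RR b σ) : RR b (ρ * σ) := by
  have h1 := ig_inflateO (hT b (by omega) _ hρ) h'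
  rw [zero_mul] at h1
  exact rr_mul h h1

theorem rr_pow (hT : ∀ N : ℕ, 2 ≤ N → ∀ n : ℕ, N ^ C ≤ n → OA N n) (hb : 3 ≤ b) {ρ : ℕ}
    (hρ : b ^ C ≤ ρ) (h : RR b ρ) (m : ℕ) (hm : 1 ≤ m) : RR b (ρ ^ m) := by
  induction m, hm using Nat.le_induction with
  | base => rwa [pow_one]
  | succ m hm ih =>
    rw [pow_succ']
    exact rr_prod hT hb hρ h ih

/-- `thmD` for two members of `RR` -/
theorem thmE (hT : ∀ N : ℕ, 2 ≤ N → ∀ n : ℕ, N ^ C ≤ n → OA N n) {c : ℕ}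
    (hc : ∀ b : ℕ, 3 ≤ b → ∀ r : ℕ, b ^ C ≤ r → ∀ g : ℕ, IG {b} g b 0 → IG {b} g r 0 →
      IG {b} g (b * r + 1) 0 → ∀ u, (b * r) ^ c ≤ u → IG {b} (g * (b * r)) u 0)
    (hb : 3 ≤ b) {ρ σ : ℕ} (hρ : b ^ C ≤ ρ) (hσ : b ^ C ≤ σ) (h' : RR b σ) {u : ℕ}
    (hu : (b * σ) ^ c ≤ u) : IG {b} ((b - 1) * (ρ * (b * σ))) u 0 := by
  have hOρ : OA b ρ := hT b (by omega) _ hρ
  have h1 : IG {b} ((b - 1) * ρ) b 0 := ig_of_oa (hT b (by omega) _ (hρ.trans
    (Nat.le_mul_of_pos_left _ (by omega))))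
  have h2 := ig_inflateO hOρ h'
  have h3 := ig_inflateO hOρ (rr_b1 hT hb hσ h')
  rw [zero_mul] at h2 h3
  have := hc b hb σ hσ ((b - 1) * ρ) h1 h2 h3 u hu
  rwa [mul_assoc] at this

/-- representation of large numbers -/
theorem repr' {G H A L R : ℕ} (hG : 0 < G) (hcop : Nat.Coprime H G)
    (h1 : G * L + H * (A + G) ≤ R) :
    ∃ u u', A ≤ u' ∧ u' < A + G ∧ L ≤ u ∧ R = G * u + H * u' := by
  have : NeZero G := ⟨hG.ne'⟩
  obtain ⟨v, hv1, hv2⟩ : ∃ v, v < G ∧ ((H * (A + v) : ℕ) : ZMod G) = (R : ZMod G) := by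
    refine ⟨((R : ZMod G) * (H : ZMod G)⁻¹ - (A : ZMod G)).val, ZMod.val_lt _, ?_⟩
    have h3 := ZMod.coe_mul_inv_eq_one H hcop
    push_cast
    rw [ZMod.natCast_zmod_val]
    calc (H : ZMod G) * ((A : ZMod G) + ((R : ZMod G) * (H : ZMod G)⁻¹ - (A : ZMod G)))
        = (R : ZMod G) * ((H : ZMod G) * (H : ZMod G)⁻¹) := by ring
      _ = R := by rw [h3, mul_one]
  have hle : H * (A + v) ≤ H * (A + G) := Nat.mul_le_mul_left H (by omega)
  have hleR : H * (A + v) ≤ R := by omega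
  have hdvd : G ∣ R - H * (A + v) := by
    rw [← Nat.modEq_iff_dvd' hleR]
    exact (ZMod.natCast_eq_natCast_iff _ _ _).1 hv2
  obtain ⟨u, hu⟩ := hdvd
  refine ⟨u, A + v, by omega, by omega, ?_, by omega⟩
  have h5 : G * L ≤ G * u := by omega
  exact Nat.le_of_mul_le_mul_left h5 hG

/-- the residue classes of `0`, `1` and `r0` -/
theorem rr_class (hT : ∀ N : ℕ, 2 ≤ N → ∀ n : ℕ, N ^ C ≤ n → OA N n) (hC : 2 ≤ C) {c : ℕ}
    (hc : ∀ b : ℕ, 3 ≤ b → ∀ r : ℕ, b ^ C ≤ r → ∀ g : ℕ, IG {b} g b 0 → IG {b} g r 0 →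
      IG {b} g (b * r + 1) 0 → ∀ u, (b * r) ^ c ≤ u → IG {b} (g * (b * r)) u 0)
    (hb : 3 ≤ b) {r : ℕ} (hr : b ^ C ≤ r) (h : RR b r) {w : ℕ} (hw : w = 0 ∨ w = 1 ∨ w = r)
    {y A c2 L R : ℕ} (hy : y = b * r + 1) (hA : A = (b * y) ^ c) (hc2 : c2 = b * y ^ (3 * C + 1))
    (hL : L = (b * r) ^ c + (b * r + 1) ^ C + c2 * (A + b * r ^ 3) + r + 1)
    (hR : (b * r ^ 3) * L + y ^ (3 * C + 1) * (A + b * r ^ 3) ≤ R) :
    RR b (b * R + w) := by
  have hr0 : 0 < r := lt_of_lt_of_le (by positivity) hr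
  have hyr : r ≤ y := by
    rw [hy]
    have : r ≤ b * r := Nat.le_mul_of_pos_left _ (by omega)
    omega
  have hyC : b ^ C ≤ y := hr.trans hyr
  have hRy : RR b y := by rw [hy]; exact rr_b1 hT hb hr h
  have hbr : RR b (b * r) := rr_b hT hb hr h
  have hbr1 : RR b (b * r + 1) := rr_b1 hT hb hr h
  have hG0 : 0 < b * r ^ 3 := by positivity
  have hbr0 : 0 < b * r := Nat.mul_pos (by omega) hr0
  have hby0 : 0 < b * y := Nat.mul_pos (by omega) (by omega)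
  have hcop : Nat.Coprime (y ^ (3 * C + 1)) (b * r ^ 3) := by
    apply Nat.Coprime.pow_left
    have h1 : Nat.Coprime y (b * r) := by rw [hy]; simp
    exact Nat.Coprime.mul_right (Nat.Coprime.coprime_mul_right_right h1)
      (Nat.Coprime.pow_right 3 (Nat.Coprime.coprime_mul_left_right h1))
  obtain ⟨u, u', hu1, hu2, hu3, hRu⟩ := repr' hG0 hcop hR
  -- the big summand
  have huL : (b * r) ^ c ≤ u := by
    refine le_trans ?_ hu3
    rw [hL]; omega
  have huC : (b * r + 1) ^ C ≤ u := by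
    refine le_trans ?_ hu3
    rw [hL]; omega
  have hc1 : RR b (r * (b * r)) := rr_prod hT hb hr h hbr
  have ht : RR b (r * (b * r) * u) := rr_mul hc1 (thmE hT hc hb hr hr h huL)
  have hut : u ≤ r * (b * r) * u := Nat.le_mul_of_pos_left _ (by positivity)
  have hO : OA (b * r + 1) (r * (b * r) * u) := hT _ (by omega) _ (huC.trans hut)
  -- the small summand
  have hy3 : y ≤ y ^ (3 * C) := Nat.le_self_pow (by omega) _
  have hc2' : c2 = y ^ (3 * C) * (b * y) := by rw [hc2, pow_succ]; ring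
  have hE2 : IG {b} ((b - 1) * c2) u' 0 := by
    rw [hc2']
    exact thmE hT hc hb (hyC.trans hy3) hyC hRy (by rw [← hA]; exact hu1)
  have hypow : RR b (y ^ (3 * C)) := rr_pow hT hb hyC hRy _ (by omega)
  have hs : RR b (c2 * u' + w) := by
    rcases hw with rfl | rfl | rfl
    · rw [add_zero]
      refine rr_mul ?_ hE2
      rw [hc2']
      exact rr_prod hT hb (hyC.trans hy3) hypow (rr_b hT hb hyC hRy)
    · refine rr_mul_add ?_ hE2
      rw [hc2]
      refine rr_b1 hT hb ?_ (rr_pow hT hb hyC hRy _ (by omega))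
      exact hyC.trans (Nat.le_self_pow (by omega) _)
    · have hO2 : OA (b * y + 1) (y ^ (3 * C)) := by
        apply hT _ (by omega)
        rw [pow_mul]
        apply Nat.pow_le_pow_left
        have h5 : b ≤ y := by
          rw [hy]
          have : b * 1 ≤ b * w := Nat.mul_le_mul_left _ hr0
          omega
        have h6 : 2 ≤ y := by omega
        calc b * y + 1 ≤ y * y + y * y := by nlinarith
          _ = 2 * (y * y) := by ring
          _ ≤ y * (y * y) := Nat.mul_le_mul_right _ h6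
          _ = y ^ 3 := by ring
      have h7 := hb_trunc (b := b) (g := b - 1) (x := b * y) (t := y ^ (3 * C)) (s := w)
        (rr_b hT hb hyC hRy) (rr_b1 hT hb hyC hRy) hO2 hypow (hyr.trans hy3)
      have e7 : b * y * y ^ (3 * C) = c2 := by rw [hc2']; ring
      rw [e7] at h7
      have h8 := ig_fill hE2 h7
      have h9 := ig_comp (K := {b}) (g := b - 1) (a := u' * c2) (b := w) (w := 0)
        (by rw [add_zero]; exact h8) h
      rw [mul_comm u' c2] at h9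
      exact h9
  have hst : c2 * u' + w ≤ r * (b * r) * u := by
    refine le_trans ?_ (hu3.trans hut)
    have h1 : c2 * u' ≤ c2 * (A + b * r ^ 3) := Nat.mul_le_mul_left _ hu2.le
    have h2 : w ≤ r + 1 := by omega
    rw [hL]
    omega
  have hfin := ig_stepE hbr hbr1 hO ht hs hst
  have e : b * r * (r * (b * r) * u) + (c2 * u' + w) = b * R + w := by
    rw [hRu, hc2]; ring
  rwa [e] at hfin

end

/-- numerical estimate -/
theorem thr_le {C c b r n0 Z y A c2 L : ℕ} (hb : 3 ≤ b) (hbr : b ≤ r)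
    (hn0 : n0 = (b - 1) * r + 1)
    (hZ : Z = n0 ^ 3) (hy : y = b * r + 1) (hA : A = (b * y) ^ c)
    (hc2 : c2 = b * y ^ (3 * C + 1))
    (hL : L = (b * r) ^ c + (b * r + 1) ^ C + c2 * (A + b * r ^ 3) + r + 1) :
    (b * r ^ 3) * L + y ^ (3 * C + 1) * (A + b * r ^ 3) ≤ Z ^ (3 * C + c + 13) := by
  obtain ⟨l, rfl⟩ : ∃ l, b = l + 1 := ⟨b - 1, by omega⟩
  simp only [Nat.add_sub_cancel] at hn0
  have hrn : r + 1 ≤ n0 := by nlinarith
  have hbn : l + 1 ≤ n0 := by nlinarith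
  have hn4 : 4 ≤ n0 := by nlinarith
  have hZ8 : 8 ≤ Z := by
    rw [hZ]
    calc 8 ≤ 4 ^ 3 := by norm_num
      _ ≤ n0 ^ 3 := Nat.pow_le_pow_left hn4 3
  have hnZ : n0 ≤ Z := by rw [hZ]; exact Nat.le_self_pow (by norm_num) _
  have hbZ : l + 1 ≤ Z := hbn.trans hnZ
  have hrZ : r ≤ Z := by omega
  have hbyZ : (l + 1) * y ≤ Z := by
    rw [hy, hZ]
    calc (l + 1) * ((l + 1) * r + 1) ≤ (l + 1) * ((l + 1) * (r + 1)) := by
          apply Nat.mul_le_mul_left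
          nlinarith
      _ ≤ n0 * (n0 * n0) := by gcongr
      _ = n0 ^ 3 := by ring
  have hyZ : y ≤ Z := le_trans (Nat.le_mul_of_pos_left _ (by omega)) hbyZ
  have hbr1Z : (l + 1) * r + 1 ≤ Z := by rw [← hy]; exact hyZ
  have hZ0 : 0 < Z := by omega
  have mono : ∀ {i j : ℕ}, i ≤ j → Z ^ i ≤ Z ^ j := fun h => Nat.pow_le_pow_right hZ0 h
  have hG : (l + 1) * r ^ 3 ≤ Z ^ 4 := by
    calc (l + 1) * r ^ 3 ≤ Z * Z ^ 3 := by gcongr
      _ = Z ^ 4 := by ring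
  have hAZ : A ≤ Z ^ c := by rw [hA]; gcongr
  have hH : y ^ (3 * C + 1) ≤ Z ^ (3 * C + 1) := by gcongr
  have hAG : A + (l + 1) * r ^ 3 ≤ Z ^ (c + 5) := by
    calc A + (l + 1) * r ^ 3 ≤ Z ^ (c + 4) + Z ^ (c + 4) :=
          Nat.add_le_add (hAZ.trans (mono (by omega))) (hG.trans (mono (by omega)))
      _ = 2 * Z ^ (c + 4) := by ring
      _ ≤ Z * Z ^ (c + 4) := Nat.mul_le_mul_right _ (by omega)
      _ = Z ^ (c + 5) := by ring
  have hc2Z : c2 ≤ Z ^ (3 * C + 2) := by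
    rw [hc2]
    calc (l + 1) * y ^ (3 * C + 1) ≤ Z * Z ^ (3 * C + 1) := by gcongr
      _ = Z ^ (3 * C + 2) := by ring
  have hLZ : L ≤ Z ^ (3 * C + c + 8) := by
    have h1 : ((l + 1) * r) ^ c ≤ Z ^ (3 * C + c + 7) :=
      (Nat.pow_le_pow_left (by omega) c).trans (mono (by omega))
    have h2 : ((l + 1) * r + 1) ^ C ≤ Z ^ (3 * C + c + 7) :=
      (Nat.pow_le_pow_left hbr1Z C).trans (mono (by omega))
    have h3 : c2 * (A + (l + 1) * r ^ 3) ≤ Z ^ (3 * C + c + 7) := by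
      calc c2 * (A + (l + 1) * r ^ 3) ≤ Z ^ (3 * C + 2) * Z ^ (c + 5) := by gcongr
        _ = Z ^ (3 * C + c + 7) := by ring
    have h4 : r + 1 ≤ Z ^ (3 * C + c + 7) := by
      calc r + 1 ≤ Z ^ 1 := by rw [pow_one]; omega
        _ ≤ _ := mono (by omega)
    have h5 : Z ^ (3 * C + c + 8) = Z * Z ^ (3 * C + c + 7) := by ring
    have h6 : 4 * Z ^ (3 * C + c + 7) ≤ Z * Z ^ (3 * C + c + 7) :=
      Nat.mul_le_mul_right _ (by omega)
    rw [hL, h5]
    omega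
  calc (l + 1) * r ^ 3 * L + y ^ (3 * C + 1) * (A + (l + 1) * r ^ 3)
      ≤ Z ^ 4 * Z ^ (3 * C + c + 8) + Z ^ (3 * C + 1) * Z ^ (c + 5) := by gcongr
    _ = Z ^ (3 * C + c + 12) + Z ^ (3 * C + c + 6) := by ring
    _ ≤ Z ^ (3 * C + c + 12) + Z ^ (3 * C + c + 12) := Nat.add_le_add_left (mono (by omega)) _
    _ = 2 * Z ^ (3 * C + c + 12) := by ring
    _ ≤ Z * Z ^ (3 * C + c + 12) := Nat.mul_le_mul_right _ (by omega)
    _ = Z ^ (3 * C + c + 13) := by ring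

/-- One large Steiner system gives all larger ones of its residue class, and of the classes of
`1` and `b`. -/
theorem persist : ∃ K : ℕ, ∀ b : ℕ, 3 ≤ b → ∀ n0 : ℕ, b ^ K ≤ n0 → IG {b} 1 n0 0 →
    (b - 1) ∣ (n0 - 1) → ∀ n : ℕ, n0 ^ K ≤ n →
      (n ≡ n0 [MOD b * (b - 1)] ∨ n ≡ 1 [MOD b * (b - 1)] ∨ n ≡ b [MOD b * (b - 1)]) →
      IG {b} 1 n 0 := by
  obtain ⟨C, hC, hT⟩ := td_gen
  obtain ⟨c, hc⟩ := thmD hT hC
  set E := 3 * C + c + 13 with hE
  refine ⟨3 * (E + 4), ?_⟩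
  intro b hb n0 hn0 h0 hd n hn hmod
  have hn0pos : 0 < n0 := lt_of_lt_of_le (by positivity) hn0
  obtain ⟨r, hr⟩ := hd
  have hn0r : n0 = (b - 1) * r + 1 := by omega
  have hrr : RR b r := by
    apply ig_delete_point (by omega)
    rwa [← hn0r]
  have hr1 : 1 ≤ r := by
    by_contra hcon
    have : r = 0 := by omega
    subst this
    have h1 : b ^ 1 ≤ b ^ (3 * (E + 4)) := Nat.pow_le_pow_right (by omega) (by omega)
    simp at hn0r h1
    omega
  have hbr : b ^ (C + 1) ≤ r := by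
    have h1 : n0 ≤ b * r := by
      rw [hn0r]
      obtain ⟨l, rfl⟩ : ∃ l, b = l + 1 := ⟨b - 1, by omega⟩
      simp only [Nat.add_sub_cancel]
      nlinarith
    have h2 : b * b ^ (C + 1) ≤ b * r := by
      refine le_trans ?_ (hn0.trans h1)
      rw [← pow_succ']
      exact Nat.pow_le_pow_right (by omega) (by omega)
    exact Nat.le_of_mul_le_mul_left h2 (by omega)
  have hbC : b ^ C ≤ r := (Nat.pow_le_pow_right (by omega) (by omega)).trans hbr
  have hbler : b ≤ r := le_trans (Nat.le_self_pow (by omega) _) hbr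
  -- the class
  have hb1 : 0 < b * (b - 1) := Nat.mul_pos (by omega) (by omega)
  have hrn : r + 1 ≤ n0 := by
    rw [hn0r]
    obtain ⟨l, rfl⟩ : ∃ l, b = l + 1 := ⟨b - 1, by omega⟩
    simp only [Nat.add_sub_cancel]
    nlinarith
  have hnn0 : n0 ≤ n := le_trans (Nat.le_self_pow (by omega) _) hn
  obtain ⟨w, R, hw, hwR⟩ : ∃ w R : ℕ, (w = 0 ∨ w = 1 ∨ w = r) ∧
      n = (b - 1) * (b * R + w) + 1 := by
    rcases hmod with h | h | h
    · obtain ⟨q, hq⟩ := (Nat.modEq_iff_dvd' hnn0).1 h.symm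
      refine ⟨r, q, Or.inr (Or.inr rfl), ?_⟩
      have e : (b - 1) * (b * q + r) + 1 = b * (b - 1) * q + ((b - 1) * r + 1) := by ring
      rw [e, ← hn0r]
      omega
    · obtain ⟨q, hq⟩ := (Nat.modEq_iff_dvd' (by omega : 1 ≤ n)).1 h.symm
      refine ⟨0, q, Or.inl rfl, ?_⟩
      have e : (b - 1) * (b * q + 0) + 1 = b * (b - 1) * q + 1 := by ring
      rw [e]
      omega
    · obtain ⟨q, hq⟩ := (Nat.modEq_iff_dvd' (by omega : b ≤ n)).1 h.symm
      refine ⟨1, q, Or.inr (Or.inl rfl), ?_⟩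
      have e : (b - 1) * (b * q + 1) + 1 = b * (b - 1) * q + ((b - 1) + 1) := by ring
      rw [e, Nat.sub_add_cancel (by omega)]
      omega
  set Z := n0 ^ 3 with hZ
  have hthr := thr_le (C := C) (c := c) hb hbler hn0r hZ rfl rfl rfl rfl
  have hZ0 : 0 < Z := by positivity
  have hnZ : n0 ≤ Z := by rw [hZ]; exact Nat.le_self_pow (by norm_num) _
  have hn4 : 4 ≤ n0 := by omega
  have hRE : Z ^ E ≤ R := by
    by_contra hcon
    push Not at hcon
    have h1 : n < Z ^ (E + 4) := by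
      have hZE : 1 ≤ Z ^ E := Nat.one_le_pow _ _ hZ0
      have hbZ : b ≤ Z := by omega
      have hwZ : w ≤ Z := by omega
      have h2 : (b - 1) * (b * R + w) + 1 ≤ Z * (Z * Z ^ E + Z) + 1 := by
        gcongr
        omega
      rw [hwR]
      refine lt_of_le_of_lt h2 ?_
      have h3 : Z * (Z * Z ^ E + Z) + 1 ≤ 3 * (Z ^ 2 * Z ^ E) := by
        have h4 : Z * Z ≤ Z ^ 2 * Z ^ E := by
          calc Z * Z = Z ^ 2 * 1 := by ring
            _ ≤ Z ^ 2 * Z ^ E := Nat.mul_le_mul_left _ hZE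
        have h5 : 1 ≤ Z ^ 2 * Z ^ E := Nat.mul_pos (by positivity) (by positivity)
        have e : Z * (Z * Z ^ E + Z) + 1 = Z ^ 2 * Z ^ E + Z * Z + 1 := by ring
        omega
      refine lt_of_le_of_lt h3 ?_
      have e2 : Z ^ (E + 4) = Z * Z * (Z ^ 2 * Z ^ E) := by ring
      rw [e2]
      apply Nat.mul_lt_mul_of_pos_right
      · nlinarith
      · positivity
    have h6 : n0 ^ (3 * (E + 4)) = Z ^ (E + 4) := by rw [hZ, ← pow_mul]
    omega
  have hfin := rr_class hT hC hc hb hbC hrr hw rfl rfl rfl rfl (hthr.trans hRE)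
  rw [hwR]
  exact steiner_of_rr (by omega) hfin

end Pool.Agent.W865.SS
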