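import Pool.Agent.W865.SS.Persist

/-!
# Conversion to Steiner systems on `Fin n`
-/

set_option autoImplicit false

namespace Pool.Agent.W865.SS

open Finset H108

/-- from a decomposition to a Steiner system -/
theorem steiner_of_ig {q n : ℕ} (h : IG {q} 1 n 0) :
    ∃ B : Finset (Finset (Fin n)), (∀ b ∈ B, b.card = q) ∧
      ∀ T : Finset (Fin n), T.card = 2 → ∃! b, b ∈ B ∧ T ⊆ b := by
  classical
  obtain ⟨B, hB1, hB2⟩ := (ig_id_iff q n (X := Fin n) (by simp)).2 h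
  refine ⟨B.toFinset, ?_, ?_⟩
  · intro b hb
    exact (hB1 b (by simpa using hb)).1
  · intro T hT
    obtain ⟨x, y, hxy, rfl⟩ := card_eq_two.1 hT
    obtain ⟨b, ⟨hb1, hb2, hb3⟩, hb4⟩ := hB2 x y hxy
    refine ⟨b, ⟨by simpa using hb1, ?_⟩, ?_⟩
    · intro z hz
      rcases mem_insert.1 hz with rfl | hz
      · exact hb2
      · rw [mem_singleton.1 hz]; exact hb3
    · rintro c ⟨hc1, hc2⟩
      exact hb4 c ⟨by simpa using hc1, hc2 (by simp), hc2 (by simp)⟩

/-- from a Steiner system to a decomposition -/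
theorem ig_of_steiner {q n : ℕ} {B : Finset (Finset (Fin n))} (h1 : ∀ b ∈ B, b.card = q)
    (h2 : ∀ T : Finset (Fin n), T.card = 2 → ∃! b, b ∈ B ∧ T ⊆ b) : IG {q} 1 n 0 := by
  classical
  rw [← ig_id_iff q n (X := Fin n) (by simp)]
  refine ⟨(B : Set (Finset (Fin n))), ?_, ?_⟩
  · intro b hb
    exact ⟨h1 b (by simpa using hb), Function.injective_id.injOn⟩
  · intro x y hxy
    obtain ⟨b, ⟨hb1, hb2⟩, hb3⟩ := h2 {x, y} (card_pair hxy)
    refine ⟨b, ⟨by simpa using hb1, hb2 (by simp), hb2 (by simp)⟩, ?_⟩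
    rintro c ⟨hc1, hc2, hc3⟩
    refine hb3 c ⟨by simpa using hc1, ?_⟩
    intro z hz
    rcases mem_insert.1 hz with rfl | hz
    · exact hc2
    · rw [mem_singleton.1 hz]; exact hc3

/-- block size two -/
theorem steiner_two (n : ℕ) : ∃ B : Finset (Finset (Fin n)), (∀ b ∈ B, b.card = 2) ∧
      ∀ T : Finset (Fin n), T.card = 2 → ∃! b, b ∈ B ∧ T ⊆ b := by
  refine ⟨powersetCard 2 univ, fun b hb => (mem_powersetCard.1 hb).2, ?_⟩
  intro T hT
  refine ⟨T, ⟨mem_powersetCard.2 ⟨subset_univ _, hT⟩, subset_rfl⟩, ?_⟩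
  rintro b ⟨hb1, hb2⟩
  exact (eq_of_subset_of_card_le hb2 (by rw [hT, (mem_powersetCard.1 hb1).2])).symm

end Pool.Agent.W865.SS
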