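import Pool.Agent.W855.Threshold

/-!
# Recursive constructions of group divisible designs

Tools on top of `Pool.Agent.W855`: products, extra points, designs with a hole of arbitrary size and
the shift construction with a hole of arbitrary size.
-/

set_option autoImplicit false

namespace Pool.Agent.W865.SS

open Finset H108 Pool.Agent.W855

variable {b g x t w h m s : ℕ}

/-- product -/
theorem ig_prod (hO : OA b t) (hx : IG {b} g x 0) (ht : IG {b} g t w) : IG {b} g (x * t) w := by
  have h1 := ig_inflateO hO hx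
  rw [zero_mul] at h1
  exact ig_fill h1 ht

/-- product with one additional group -/
theorem ig_prod_one (hO : OA b t) (hx : IG {b} g x 0) (ht : IG {b} g (t + 1) 0) :
    IG {b} g (x * t + 1) 0 := by
  rw [← ig_hole_iff] at ht ⊢
  exact ig_prod hO hx ht

/-- fill all groups but one -/
theorem ig_fillHole (h1 : IG {b} (g * t) (x + 1) 0) (ht : IG {b} g t w) :
    IG {b} g (x * t) (g * t + w) := by
  have h2 : GD ({x + 1} : Set ℕ) (id : Fin (x + 1) → Fin (x + 1)) :=
    (ig_id_iff (x + 1) (x + 1) (by simp)).2 (ig_block (x + 1))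
  have h3 := ig_masterHole (k := b) (g := g) (c := t) (w := w) (id : Fin (x + 1) → Fin (x + 1)) 0 h2
    (by rintro u rfl; exact h1) (by intro i _; simpa using ht)
  have e1 : Nat.card {y : Fin (x + 1) // id y = 0} = 1 := by simp
  have e2 : Nat.card {y : Fin (x + 1) // id y ≠ 0} = x := by
    rw [Nat.card_eq_fintype_card]
    simp
  rw [e1, e2, mul_one, mul_comm t x] at h3
  exact h3

/-- `u` groups, the first `h` of which form a hole -/
def HB (b h g u : ℕ) : Prop := h ≤ u ∧ IG {b} g (u - h) (g * h)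

theorem hb_base (b h g : ℕ) : HB b h g h := ⟨le_rfl, by rw [Nat.sub_self]; exact ig_empty _ _ _⟩

theorem hb_prod (hx0 : 0 < x) (hO : OA b t) (hx : IG {b} g x 0) (ht : IG {b} g t 0)
    (hh : HB b h g t) : HB b h g (x * t) := by
  obtain ⟨x, rfl⟩ : ∃ y, x = y + 1 := ⟨x - 1, by omega⟩
  obtain ⟨h1, h2⟩ := hh
  have h3 := ig_inflateO hO hx
  rw [zero_mul] at h3
  have h4 := ig_fillHole h3 ht
  have e : g * t + 0 = g * (t - h) + g * h := by
    rw [add_zero, ← mul_add]; congr 1; omega
  rw [e] at h4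
  have h5 := ig_comp h4 h2
  have e2 : (x + 1) * t = x * t + t := by ring
  refine ⟨by rw [e2]; omega, ?_⟩
  have e3 : (x + 1) * t - h = x * t + (t - h) := by rw [e2]; omega
  rw [e3]
  exact h5

theorem hb_step (hx0 : 0 < x) (hx : IG {b} g x 0) (hx1 : IG {b} g (x + 1) 0)
    (hO : OA (x + 1) t) (ht : IG {b} g t 0) (hh : HB b h g t) (hs : IG {b} g s 0) (hst : s ≤ t) :
    HB b h g (x * t + s) := by
  obtain ⟨W, hW⟩ := hO
  have hx0' : (0 : Fin (x + 1)).val < x := by simpa using hx0
  have hkt : h ≤ t := hh.1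
  have hxt : t ≤ x * t := Nat.le_mul_of_pos_left t hx0
  refine ⟨by omega, ?_⟩
  have h1 := ig_oa_hole (k := b) (g := g) hW (fun i v => i.val < x ∨ v.val < s) {x, x + 1} 0
    (fun w _ S hS => trunc_block w S hS)
    (by
      rintro u (rfl | rfl)
      · exact hx
      · exact hx1) (by
      intro i _
      rw [trunc_card hst]
      split_ifs
      · exact ht
      · exact hs)
  rw [trunc_sum hst, trunc_card hst, if_pos hx0'] at h1
  have h2 : g * t = g * (t - h) + g * h := by
    rw [← mul_add]; congr 1; omega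
  rw [h2] at h1
  have h3 := ig_comp h1 hh.2
  have h4 : x * t + s - t + (t - h) = x * t + s - h := by omega
  rwa [h4] at h3

/-- the truncated group as a hole -/
theorem hb_trunc (hx : IG {b} g x 0) (hx1 : IG {b} g (x + 1) 0)
    (hO : OA (x + 1) t) (ht : IG {b} g t 0) (hst : s ≤ t) :
    IG {b} g (x * t) (g * s) := by
  obtain ⟨W, hW⟩ := hO
  have h1 := ig_oa_hole (k := b) (g := g) hW (fun i v => i.val < x ∨ v.val < s) {x, x + 1}
    (Fin.last x) (fun w _ S hS => trunc_block w S hS)
    (by
      rintro u (rfl | rfl)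
      · exact hx
      · exact hx1) (by
      intro i hi
      rw [trunc_card hst, if_pos]
      · exact ht
      · by_contra hcon
        apply hi
        apply Fin.ext
        have := i.2
        simp only [Fin.val_last]
        omega)
  rw [trunc_sum hst, trunc_card hst, if_neg (by simp)] at h1
  simpa using h1

/-- the shift construction, with a hole of arbitrary size -/
theorem ig_shift' (hh : 0 < h) (h1 : IG {b} g m (g * h)) (hO : OA (h + 1) m)
    (hE : IG {b} g h 0) : IG {b} (g * h) (m + 1) 0 := by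
  rcases m with _ | m
  · exact ig_one _ _
  obtain ⟨W, hW1, hW2⟩ := oa_idem hh hO
  rw [← ig_hole_iff]
  have h0 : GD {b} (igm (Fin (m + 1)) (Fin g) (Fin h × Fin g)) :=
    (igm_iff (by simp) (by simp) (by simp [mul_comm])).2 h1
  have h00 : GD {b} (Prod.fst : Fin h × Fin g → Fin h) := (ig_iff_fst {b} g h).1 hE
  suffices H : GD {b} (igm (Fin (m + 1)) (Fin h × Fin g) (Fin h × Fin g)) from
    (igm_iff (by simp [mul_comm]) (by simp) (by simp [mul_comm])).1 H
  refine GD_union _ (ι := Fin h ⊕ {w // w ∈ W})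
    (Sum.elim (fun _ => (Fin (m + 1) × Fin g) ⊕ (Fin h × Fin g)) (fun _ => Fin h × Fin g))
    (Sum.elim (fun _ => Option (Fin (m + 1))) (fun _ => Fin h))
    (fun o => match o with
      | Sum.inl i => Sum.elim (fun p => Sum.inl (p.1, (i, p.2))) Sum.inr
      | Sum.inr w => fun p => Sum.inl (w.1 p.1, (p.1, p.2))) ?_
    (fun o => match o with
      | Sum.inl _ => igm (Fin (m + 1)) (Fin g) (Fin h × Fin g)
      | Sum.inr _ => Prod.fst) ?_ ?_ ?_
  · rintro (i | w)
    · rintro (⟨x, a⟩ | x) (⟨y, b⟩ | y) hxy <;> simp_all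
    · rintro ⟨x, a⟩ ⟨y, b⟩ hxy
      simp only [Sum.inl.injEq, Prod.mk.injEq] at hxy
      rw [hxy.2.1, hxy.2.2]
  · rintro (i | w)
    · rintro (⟨x, a⟩ | x) (⟨y, b⟩ | y) hxy <;> simp_all
    · rintro ⟨x, a⟩ ⟨y, b⟩ hxy
      simp only [igm_inl, ne_eq, Option.some.injEq]
      exact hW2 w.1 w.2 x y hxy
  · rintro (⟨x, i, a⟩ | x) (⟨y, j, b⟩ | y) hxy
    · have hxy' : x ≠ y := by simpa using hxy
      by_cases hij : i = j
      · subst hij
        refine ⟨Sum.inl i, ⟨Sum.inl (x, a), Sum.inl (y, b), rfl, rfl, by simpa using hxy'⟩, ?_⟩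
        rintro (i' | w) ⟨z, z', hz, hz', hs⟩
        · rcases z with ⟨z, c⟩ | z
          · simp only [Sum.elim_inl, Sum.inl.injEq, Prod.mk.injEq] at hz
            rw [hz.2.1]
          · simp at hz
        · exfalso
          simp only [Sum.inl.injEq, Prod.mk.injEq] at hz hz'
          exact hs (hz.2.1.trans hz'.2.1.symm)
      · obtain ⟨w, ⟨hw, h1, h2⟩, hu⟩ := hW1 i j hij x y hxy'
        refine ⟨Sum.inr ⟨w, hw⟩, ⟨(i, a), (j, b), by simp [h1], by simp [h2], hij⟩, ?_⟩
        rintro (i' | w') ⟨z, z', hz, hz', hs⟩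
        · exfalso
          rcases z with ⟨z, c⟩ | z
          · rcases z' with ⟨z', c'⟩ | z'
            · simp only [Sum.elim_inl, Sum.inl.injEq, Prod.mk.injEq] at hz hz'
              exact hij (hz.2.1.symm.trans hz'.2.1)
            · simp at hz'
          · simp at hz
        · simp only [Sum.inl.injEq, Prod.mk.injEq] at hz hz'
          congr 1
          apply Subtype.ext
          apply hu
          refine ⟨w'.2, ?_, ?_⟩
          · rw [← hz.1, hz.2.1]
          · rw [← hz'.1, hz'.2.1]
    · refine ⟨Sum.inl i, ⟨Sum.inl (x, a), Sum.inr y, rfl, rfl, by simp⟩, ?_⟩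
      rintro (i' | w) ⟨z, z', hz, hz', hs⟩
      · rcases z with ⟨z, c⟩ | z
        · simp only [Sum.elim_inl, Sum.inl.injEq, Prod.mk.injEq] at hz
          rw [hz.2.1]
        · simp at hz
      · simp at hz'
    · refine ⟨Sum.inl j, ⟨Sum.inr x, Sum.inl (y, b), rfl, rfl, by simp⟩, ?_⟩
      rintro (i' | w) ⟨z, z', hz, hz', hs⟩
      · rcases z' with ⟨z', c⟩ | z'
        · simp only [Sum.elim_inl, Sum.inl.injEq, Prod.mk.injEq] at hz'
          rw [hz'.2.1]
        · simp at hz'
      · simp at hz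
    · simp at hxy
  · rintro (i | w)
    · exact h0
    · exact h00

end Pool.Agent.W865.SS
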